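import Pool.Agent.CohenPD.Lat

/-! Irreducible elements of the lattice: every element is a finite sum of irreducible ones, and
only finitely many irreducible elements of bounded norm have a nonzero inner product with a given
element. -/

namespace Pool.Agent.CohenPD

open Filter Topology

variable {H : Type*} [NormedAddCommGroup H] [InnerProductSpace ℝ H]

/-- `z` is irreducible: it is not a sum of two nonzero elements of the lattice with nonnegative
inner product -/
structure Irr (π : ℝ → H →L[ℝ] H) (ξ z : H) : Prop where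
  lat : Lat π ξ z
  ne : z ≠ 0
  irr : ∀ x y, Lat π ξ x → Lat π ξ y → z = x + y → 0 ≤ (inner ℝ x y : ℝ) → x = 0 ∨ y = 0

section

variable {π : ℝ → H →L[ℝ] H} {ξ : H} (hπ : IsRep π)
  (hξ : ∀ t, ∃ k : ℤ, inner ℝ (π t ξ) ξ = (k : ℝ))

include hπ in
theorem Irr.act {z : H} (h : Irr π ξ z) (t : ℝ) : Irr π ξ (π t z) := by
  refine ⟨h.lat.act hπ t, fun h0 => h.ne ?_, fun x y hx hy hxy hn => ?_⟩
  · apply hπ.inj t
    rw [h0, map_zero]
  · have h1 := h.irr (π (-t) x) (π (-t) y) (hx.act hπ _) (hy.act hπ _)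
      (by rw [← map_add, ← hxy, hπ.neg_apply]) (by rw [hπ.isom]; exact hn)
    rcases h1 with h1 | h1
    · left
      apply hπ.inj (-t)
      rw [h1, map_zero]
    · right
      apply hπ.inj (-t)
      rw [h1, map_zero]

include hπ hξ in
/-- the square of the norm is a natural number -/
theorem exists_nat {x : H} (hx : Lat π ξ x) : ∃ n : ℕ, (inner ℝ x x : ℝ) = n := by
  obtain ⟨k, hk⟩ := hx.int hπ hξ hx
  have h0 : (0 : ℝ) ≤ inner ℝ x x := real_inner_self_nonneg
  rw [hk] at h0
  have h1 : 0 ≤ k := by exact_mod_cast h0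
  refine ⟨k.toNat, ?_⟩
  rw [hk]
  have h2 : ((k.toNat : ℤ) : ℝ) = (k : ℝ) := by rw [Int.toNat_of_nonneg h1]
  rw [← h2, Int.cast_natCast]

include hπ hξ in
theorem exists_irr {v : H} (hv : Lat π ξ v) (hv0 : v ≠ 0) :
    ∃ z w : H, Irr π ξ z ∧ Lat π ξ w ∧ v = z + w ∧ 0 ≤ (inner ℝ z w : ℝ) := by
  classical
  have hex : ∃ n : ℕ, ∃ z, Lat π ξ z ∧ z ≠ 0 ∧ 0 ≤ (inner ℝ z (v - z) : ℝ)
      ∧ (inner ℝ z z : ℝ) = n := by
    obtain ⟨n, hn⟩ := exists_nat hπ hξ hv
    exact ⟨n, v, hv, hv0, by rw [sub_self, inner_zero_right], hn⟩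
  obtain ⟨z, hz, hz0, hzv, hzn⟩ := Nat.find_spec hex
  have hmin := fun m (hm : m < Nat.find hex) => Nat.find_min hex hm
  refine ⟨z, v - z, ⟨hz, hz0, ?_⟩, Lat.sub _ _ hv hz, by abel, hzv⟩
  intro x y hx hy hxy hn
  by_contra hcon
  push Not at hcon
  obtain ⟨hx0, hy0⟩ := hcon
  have hxx : 0 < (inner ℝ x x : ℝ) := real_inner_self_pos.mpr hx0
  have hyy : 0 < (inner ℝ y y : ℝ) := real_inner_self_pos.mpr hy0
  have hzz : (inner ℝ z z : ℝ) = inner ℝ x x + 2 * inner ℝ x y + inner ℝ y y := by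
    rw [hxy, real_inner_add_add_self]
  have key : ∀ u : H, Lat π ξ u → u ≠ 0 → (inner ℝ u u : ℝ) < inner ℝ z z →
      (inner ℝ u (v - u) : ℝ) < 0 := by
    intro u hu hu0 hlt
    by_contra h
    push Not at h
    obtain ⟨m, hm⟩ := exists_nat hπ hξ hu
    have h1 : m < Nat.find hex := by
      rw [hm, hzn] at hlt
      exact_mod_cast hlt
    exact hmin m h1 ⟨u, hu, hu0, h, hm⟩
  have h1 := key x hx hx0 (by rw [hzz]; linarith)
  have h2 := key y hy hy0 (by rw [hzz]; linarith)
  have e1 : (inner ℝ x (v - x) : ℝ) = inner ℝ x (v - z) + inner ℝ x y := by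
    rw [← inner_add_right]
    congr 1
    rw [hxy]; abel
  have e2 : (inner ℝ y (v - y) : ℝ) = inner ℝ y (v - z) + inner ℝ x y := by
    rw [real_inner_comm y x, ← inner_add_right]
    congr 1
    rw [hxy]; abel
  have e3 : (inner ℝ z (v - z) : ℝ) = inner ℝ x (v - z) + inner ℝ y (v - z) := by
    rw [← inner_add_left, ← hxy]
  linarith

include hπ hξ in
/-- every element of the lattice is a finite sum of irreducible elements -/
theorem exists_sum {v : H} (hv : Lat π ξ v) : ∃ l : List H, (∀ z ∈ l, Irr π ξ z) ∧ l.sum = v := by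
  have main : ∀ n : ℕ, ∀ v : H, Lat π ξ v → (inner ℝ v v : ℝ) = n →
      ∃ l : List H, (∀ z ∈ l, Irr π ξ z) ∧ l.sum = v := by
    intro n
    induction n using Nat.strong_induction_on with
    | _ n ih =>
      intro v hv hn
      by_cases hv0 : v = 0
      · exact ⟨[], by simp, by simp [hv0]⟩
      · obtain ⟨z, w, hz, hw, hzw, hin⟩ := exists_irr hπ hξ hv hv0
        obtain ⟨m, hm⟩ := exists_nat hπ hξ hw
        have h1 : m < n := by
          have h2 : (inner ℝ v v : ℝ) = inner ℝ z z + 2 * inner ℝ z w + inner ℝ w w := by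
            rw [hzw, real_inner_add_add_self]
          have h3 : 0 < (inner ℝ z z : ℝ) := real_inner_self_pos.mpr hz.ne
          have h4 : (m : ℝ) < n := by rw [← hm, ← hn, h2]; linarith
          exact_mod_cast h4
        obtain ⟨l, hl, hls⟩ := ih m h1 w hw hm
        refine ⟨z :: l, ?_, ?_⟩
        · intro u hu
          rcases List.mem_cons.mp hu with h | h
          · rw [h]; exact hz
          · exact hl u h
        · rw [List.sum_cons, hls, hzw]
  obtain ⟨n, hn⟩ := exists_nat hπ hξ hv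
  exact main n v hv hn

include hπ hξ in
/-- only finitely many irreducible elements of bounded norm have nonzero inner product with `v` -/
theorem finite_irr [CompleteSpace H] {v : H} (hv : Lat π ξ v) (C : ℝ) :
    {w : H | Irr π ξ w ∧ ‖w‖ ≤ C ∧ (inner ℝ w v : ℝ) ≠ 0}.Finite := by
  by_contra hinf
  have hinf' : {w : H | Irr π ξ w ∧ ‖w‖ ≤ C ∧ (inner ℝ w v : ℝ) ≠ 0}.Infinite := hinf
  set g : ℕ → H := fun n => (hinf'.natEmbedding _ n : H) with hg
  have hginj : Function.Injective g := fun a b hab =>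
    (hinf'.natEmbedding _).injective (Subtype.ext hab)
  have hgm : ∀ n, Irr π ξ (g n) ∧ ‖g n‖ ≤ C ∧ (inner ℝ (g n) v : ℝ) ≠ 0 :=
    fun n => (hinf'.natEmbedding _ n).2
  obtain ⟨w, hw⟩ := exists_weak_limit g (Filter.hyperfilter ℕ) (C := C) (fun n => (hgm n).2.1)
  have hwL : Lat π ξ w := Lat.lim g _ w (fun n => (hgm n).1.lat) hw
  -- the limit is not zero
  have hw0 : w ≠ 0 := by
    intro h0
    have h1 := int_limit (fun n => (hgm n).1.lat.int hπ hξ hv) (hw v)
    rw [h0, inner_zero_left] at h1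
    obtain ⟨n, hn⟩ := h1.2.exists
    exact (hgm n).2.2 hn
  have h2 := (int_limit (fun n => (hgm n).1.lat.int hπ hξ hwL) (hw w)).2
  have h3 : ∀ᶠ n in (Filter.hyperfilter ℕ : Filter ℕ), g n = w := by
    filter_upwards [h2] with n hn
    have h4 := (hgm n).1.irr w (g n - w) hwL (Lat.sub _ _ (hgm n).1.lat hwL) (by abel) (by
      rw [inner_sub_right, real_inner_comm (g n) w, hn, sub_self])
    rcases h4 with h4 | h4
    · exact absurd h4 hw0
    · exact sub_eq_zero.mp h4
  -- two different indices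
  obtain ⟨n, hn⟩ := h3.exists
  have h5 : ∀ᶠ m in (Filter.hyperfilter ℕ : Filter ℕ), m ≠ n := by
    have : {n}ᶜ ∈ (Filter.hyperfilter ℕ : Filter ℕ) :=
      Filter.compl_mem_hyperfilter_of_finite (Set.finite_singleton n)
    exact this
  obtain ⟨m, hm1, hm2⟩ := (h3.and h5).exists
  exact hm2 (hginj (hm1.trans hn.symm))

end

end Pool.Agent.CohenPD
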