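import Mathlib

/-! Integer valued positive definite functions, the lattice argument: vectors with integer inner
products in a real Hilbert space with a one-parameter group of isometries. -/

namespace Pool.Agent.CohenPD

open Filter Topology

section weak

variable {H : Type*} [NormedAddCommGroup H] [InnerProductSpace ℝ H] [CompleteSpace H]

/-- bounded sequences have weak limits along ultrafilters -/
theorem exists_weak_limit (f : ℕ → H) (F : Ultrafilter ℕ) {C : ℝ} (hC : ∀ n, ‖f n‖ ≤ C) :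
    ∃ x : H, ∀ y : H, Tendsto (fun n => inner ℝ (f n) y) F (𝓝 (inner ℝ x y)) := by
  have hK := WeakDual.isCompact_closedBall (𝕜 := ℝ) (E := H) 0 C
  set g : ℕ → WeakDual ℝ H := fun n => StrongDual.toWeakDual (InnerProductSpace.toDual ℝ H (f n))
    with hg
  have hmem : ∀ n, g n ∈ WeakDual.toStrongDual ⁻¹' Metric.closedBall (0 : StrongDual ℝ H) C := by
    intro n
    simp only [Set.mem_preimage, Metric.mem_closedBall, dist_zero_right, hg]
    calc ‖WeakDual.toStrongDual (StrongDual.toWeakDual (InnerProductSpace.toDual ℝ H (f n)))‖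
        = ‖InnerProductSpace.toDual ℝ H (f n)‖ := rfl
      _ = ‖f n‖ := (InnerProductSpace.toDual ℝ H).norm_map _
      _ ≤ C := hC n
  obtain ⟨w, -, hw⟩ := hK.ultrafilter_le_nhds (F.map g)
    (by
      rw [Filter.le_principal_iff]
      exact Filter.mem_map.mpr (Filter.mem_of_superset Filter.univ_mem (fun n _ => hmem n)))
  refine ⟨(InnerProductSpace.toDual ℝ H).symm (WeakDual.toStrongDual w), fun y => ?_⟩
  have h1 : Tendsto g F (𝓝 w) := hw
  have h2 : Tendsto (fun n => g n y) F (𝓝 (w y)) :=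
    ((WeakDual.eval_continuous y).tendsto w).comp h1
  have h3 : inner ℝ ((InnerProductSpace.toDual ℝ H).symm (WeakDual.toStrongDual w)) y = w y := by
    rw [InnerProductSpace.toDual_symm_apply]
    rfl
  rw [h3]
  refine h2.congr (fun n => ?_)
  simp only [hg]
  rfl

/-- a limit of integers along a nontrivial filter is an integer, attained eventually -/
theorem int_limit {α : Type*} {F : Filter α} [F.NeBot] {f : α → ℝ} {c : ℝ}
    (hf : ∀ n, ∃ k : ℤ, f n = k) (h : Tendsto f F (𝓝 c)) :
    (∃ k : ℤ, c = k) ∧ ∀ᶠ n in F, f n = c := by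
  have hcl : IsClosed (Set.range ((↑) : ℤ → ℝ)) := Int.isClosedEmbedding_coe_real.isClosed_range
  have hc : c ∈ Set.range ((↑) : ℤ → ℝ) := by
    refine hcl.mem_of_tendsto h (Eventually.of_forall (fun n => ?_))
    obtain ⟨k, hk⟩ := hf n
    exact ⟨k, hk.symm⟩
  obtain ⟨k, hk⟩ := hc
  refine ⟨⟨k, hk.symm⟩, ?_⟩
  have h1 : ∀ᶠ n in F, |f n - c| < 1 := by
    have := h.eventually (Metric.ball_mem_nhds c one_pos)
    simpa [Real.dist_eq] using this
  filter_upwards [h1] with n hn
  obtain ⟨m, hm⟩ := hf n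
  rw [hm, ← hk] at hn ⊢
  have h2 : |m - k| < 1 := by exact_mod_cast hn
  have h3 : m - k = 0 := Int.abs_lt_one_iff.mp h2
  have h4 : m = k := by omega
  rw [h4]

end weak

variable {H : Type*} [NormedAddCommGroup H] [InnerProductSpace ℝ H]

/-- a one-parameter group of linear isometries -/
structure IsRep (π : ℝ → H →L[ℝ] H) : Prop where
  zero : ∀ x, π 0 x = x
  add : ∀ s t x, π (s + t) x = π s (π t x)
  isom : ∀ t x y, inner ℝ (π t x) (π t y) = (inner ℝ x y : ℝ)

/-- the smallest set that contains the orbit of `ξ` and is closed under differences and weak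
limits along ultrafilters -/
inductive Lat (π : ℝ → H →L[ℝ] H) (ξ : H) : H → Prop
  | base (t : ℝ) : Lat π ξ (π t ξ)
  | sub (x y : H) : Lat π ξ x → Lat π ξ y → Lat π ξ (x - y)
  | lim (f : ℕ → H) (F : Ultrafilter ℕ) (x : H) : (∀ n, Lat π ξ (f n)) →
      (∀ y, Tendsto (fun n => inner ℝ (f n) y) F (𝓝 (inner ℝ x y))) → Lat π ξ x

section

variable {π : ℝ → H →L[ℝ] H} {ξ : H} (hπ : IsRep π)

include hπ in
theorem IsRep.neg_apply (t : ℝ) (x : H) : π (-t) (π t x) = x := by
  rw [← hπ.add, neg_add_cancel, hπ.zero]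

include hπ in
theorem IsRep.apply_neg (t : ℝ) (x : H) : π t (π (-t) x) = x := by
  rw [← hπ.add, add_neg_cancel, hπ.zero]

include hπ in
theorem IsRep.inner_left (t : ℝ) (x y : H) : inner ℝ (π t x) y = (inner ℝ x (π (-t) y) : ℝ) := by
  rw [← hπ.isom t x (π (-t) y), hπ.apply_neg]

include hπ in
theorem IsRep.inner_right (t : ℝ) (x y : H) : inner ℝ x (π t y) = (inner ℝ (π (-t) x) y : ℝ) := by
  rw [hπ.inner_left, neg_neg]

include hπ in
theorem IsRep.inj (t : ℝ) {x y : H} (h : π t x = π t y) : x = y := by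
  rw [← hπ.neg_apply t x, h, hπ.neg_apply]

theorem Lat.zero (x : H) (h : Lat π ξ x) : Lat π ξ 0 := by
  have := Lat.sub x x h h
  rwa [sub_self] at this

theorem Lat.neg {x : H} (h : Lat π ξ x) : Lat π ξ (-x) := by
  have := Lat.sub 0 x (Lat.zero x h) h
  rwa [zero_sub] at this

theorem Lat.add {x y : H} (h : Lat π ξ x) (h' : Lat π ξ y) : Lat π ξ (x + y) := by
  have := Lat.sub x (-y) h (Lat.neg h')
  rwa [sub_neg_eq_add] at this

include hπ in
theorem Lat.act {x : H} (h : Lat π ξ x) (t : ℝ) : Lat π ξ (π t x) := by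
  induction h with
  | base s => rw [← hπ.add]; exact Lat.base _
  | sub x y _ _ h1 h2 => rw [map_sub]; exact Lat.sub _ _ h1 h2
  | lim f F x _ hl h1 =>
    refine Lat.lim (fun n => π t (f n)) F _ h1 (fun y => ?_)
    simp only [hπ.inner_left t]
    exact hl _

include hπ in
/-- all inner products are integers -/
theorem Lat.int (hξ : ∀ t, ∃ k : ℤ, inner ℝ (π t ξ) ξ = (k : ℝ)) {x y : H}
    (hx : Lat π ξ x) (hy : Lat π ξ y) : ∃ k : ℤ, inner ℝ x y = (k : ℝ) := by
  induction hx with
  | base s =>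
    induction hy with
    | base t =>
      rw [hπ.inner_right, ← hπ.add]
      exact hξ _
    | sub x y _ _ h1 h2 =>
      obtain ⟨k, hk⟩ := h1
      obtain ⟨m, hm⟩ := h2
      exact ⟨k - m, by rw [inner_sub_right, hk, hm]; push_cast; ring⟩
    | lim f F x _ hl h1 =>
      have h2 : Tendsto (fun n => (inner ℝ (π s ξ) (f n) : ℝ)) F (𝓝 (inner ℝ (π s ξ) x)) := by
        have h3 := hl (π s ξ)
        simp only [real_inner_comm (π s ξ)] at h3 ⊢
        exact h3
      exact (int_limit h1 h2).1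
  | sub x y _ _ h1 h2 =>
    obtain ⟨k, hk⟩ := h1
    obtain ⟨m, hm⟩ := h2
    exact ⟨k - m, by rw [inner_sub_left, hk, hm]; push_cast; ring⟩
  | lim f F x _ hl h1 => exact (int_limit h1 (hl y)).1

end

end Pool.Agent.CohenPD
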