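import Pool.Agent.CohenPD.Irr

/-! The structure theorem for integer valued matrix coefficients `t ↦ ⟪π t ξ, ξ⟫` which vanish in
a punctured neighbourhood of `0`. -/

namespace Pool.Agent.CohenPD

open Filter Topology

/-- the value at `t` of `n` times the indicator function of `a + ℤ τ`, for `x = (n, a, τ)` -/
noncomputable def ind (x : ℤ × ℝ × ℝ) (t : ℝ) : ℤ := by
  classical exact if ∃ k : ℤ, t = x.2.1 + k * x.2.2 then x.1 else 0

/-- sum of the indicator functions of a list -/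
noncomputable def indSum (l : List (ℤ × ℝ × ℝ)) (t : ℝ) : ℤ := (l.map (fun x => ind x t)).sum

theorem indSum_nil (t : ℝ) : indSum [] t = 0 := by simp [indSum]

theorem indSum_append (l m : List (ℤ × ℝ × ℝ)) (t : ℝ) :
    indSum (l ++ m) t = indSum l t + indSum m t := by
  simp [indSum]

set_option linter.unusedSectionVars false

variable {H : Type*} [NormedAddCommGroup H] [InnerProductSpace ℝ H] [CompleteSpace H]
variable {π : ℝ → H →L[ℝ] H} {ξ : H} (hπ : IsRep π)
  (hξ : ∀ t, ∃ k : ℤ, inner ℝ (π t ξ) ξ = (k : ℝ))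

/-- the stabiliser of a vector -/
def stab (hπ : IsRep π) (z : H) : AddSubgroup ℝ where
  carrier := {t | π t z = z}
  zero_mem' := hπ.zero z
  add_mem' := by
    intro a b ha hb
    simp only [Set.mem_ofPred_eq] at ha hb ⊢
    rw [hπ.add, hb, ha]
  neg_mem' := by
    intro a ha
    simp only [Set.mem_ofPred_eq] at ha ⊢
    nth_rewrite 1 [← ha]
    exact hπ.neg_apply a z

theorem mem_stab {z : H} {t : ℝ} : t ∈ stab hπ z ↔ π t z = z := Iff.rfl

theorem norm_act (hπ : IsRep π) (t : ℝ) (x : H) : ‖π t x‖ = ‖x‖ := by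
  have h1 : ‖π t x‖ ^ 2 = ‖x‖ ^ 2 := by
    rw [← real_inner_self_eq_norm_sq, ← real_inner_self_eq_norm_sq, hπ.isom]
  exact (sq_eq_sq₀ (norm_nonneg _) (norm_nonneg _)).mp h1

/-- a nonzero element of the lattice is not fixed by arbitrarily small translations -/
theorem stab_discrete {δ : ℝ} (hδ : 0 < δ)
    (h0 : ∀ t : ℝ, 0 < |t| → |t| < δ → inner ℝ (π t ξ) ξ = (0 : ℝ)) {z : H} (hz : Lat π ξ z)
    (hdense : Dense (stab hπ z : Set ℝ)) : z = 0 := by
  -- z is orthogonal to the orbit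
  have horb : ∀ t, (inner ℝ (π t ξ) z : ℝ) = 0 := by
    intro t
    -- N elements of the stabiliser in (0, δ)
    have hinf : ((stab hπ z : Set ℝ) ∩ Set.Ioo 0 δ).Infinite := by
      intro hfin
      have h1 : (Set.Ioo (0 : ℝ) δ \ ((stab hπ z : Set ℝ) ∩ Set.Ioo 0 δ)).Nonempty :=
        ((Set.Ioo_infinite hδ).sdiff hfin).nonempty
      have hop : IsOpen (Set.Ioo (0 : ℝ) δ \ ((stab hπ z : Set ℝ) ∩ Set.Ioo 0 δ)) :=
        isOpen_Ioo.sdiff hfin.isClosed
      obtain ⟨x, hx1, hx2⟩ := hdense.exists_mem_open hop h1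
      exact hx2.2 ⟨hx1, hx2.1⟩
    have hbound : ∀ N : ℕ, (N : ℝ) * |(inner ℝ (π t ξ) z : ℝ)| ^ 2 ≤
        (inner ℝ ξ ξ : ℝ) * ‖z‖ ^ 2 := by
      intro N
      obtain ⟨S, hS, hcard⟩ := hinf.exists_subset_card_eq N
      by_cases hN : N = 0
      · rw [hN]
        simp only [Nat.cast_zero, zero_mul]
        exact mul_nonneg real_inner_self_nonneg (by positivity)
      have hN0 : (0 : ℝ) < N := by exact_mod_cast Nat.pos_of_ne_zero hN
      have e1 : ∀ g ∈ S, (inner ℝ (π (t - g) ξ) z : ℝ) = inner ℝ (π t ξ) z := by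
        intro g hg
        have hgz : π g z = z := (hS hg).1
        have h2 : (inner ℝ (π g (π (t - g) ξ)) (π g z) : ℝ) = inner ℝ (π (t - g) ξ) z :=
          hπ.isom _ _ _
        rw [← h2, hgz, ← hπ.add]
        congr 2
        ring
      have e2 : (inner ℝ (∑ g ∈ S, π (t - g) ξ) z : ℝ) = N * inner ℝ (π t ξ) z := by
        rw [sum_inner, Finset.sum_congr rfl e1, Finset.sum_const, hcard, nsmul_eq_mul]
      have e3 : (inner ℝ (∑ g ∈ S, π (t - g) ξ) (∑ g ∈ S, π (t - g) ξ) : ℝ)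
          = N * inner ℝ ξ ξ := by
        rw [sum_inner]
        have h3 : ∀ g ∈ S, (inner ℝ (π (t - g) ξ) (∑ g ∈ S, π (t - g) ξ) : ℝ) = inner ℝ ξ ξ := by
          intro g hg
          rw [inner_sum, Finset.sum_eq_single g]
          · rw [hπ.isom]
          · intro g' hg' hne
            rw [hπ.inner_right, ← hπ.add]
            apply h0
            · rw [abs_pos]
              intro h
              apply hne
              linarith
            · have a1 := (hS hg).2
              have a2 := (hS hg').2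
              rw [Set.mem_Ioo] at a1 a2
              rw [abs_lt]
              constructor <;> linarith
          · intro h; exact absurd hg h
        rw [Finset.sum_congr rfl h3, Finset.sum_const, hcard, nsmul_eq_mul]
      have e4 := abs_real_inner_le_norm (∑ g ∈ S, π (t - g) ξ) z
      rw [e2, abs_mul, abs_of_pos hN0] at e4
      have e5 : ((N : ℝ) * |(inner ℝ (π t ξ) z : ℝ)|) ^ 2 ≤
          ((N : ℝ) * inner ℝ ξ ξ) * ‖z‖ ^ 2 := by
        rw [← e3, real_inner_self_eq_norm_sq, ← mul_pow]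
        exact pow_le_pow_left₀ (by positivity) e4 2
      have e6 : (N : ℝ) * ((N : ℝ) * |(inner ℝ (π t ξ) z : ℝ)| ^ 2) ≤
          N * ((inner ℝ ξ ξ : ℝ) * ‖z‖ ^ 2) := by
        calc (N : ℝ) * ((N : ℝ) * |(inner ℝ (π t ξ) z : ℝ)| ^ 2)
            = ((N : ℝ) * |(inner ℝ (π t ξ) z : ℝ)|) ^ 2 := by ring
          _ ≤ ((N : ℝ) * inner ℝ ξ ξ) * ‖z‖ ^ 2 := e5
          _ = _ := by ring
      exact le_of_mul_le_mul_left e6 hN0
    by_contra hne
    have hpos : 0 < |(inner ℝ (π t ξ) z : ℝ)| ^ 2 := by positivity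
    obtain ⟨N, hN⟩ := exists_nat_gt ((inner ℝ ξ ξ : ℝ) * ‖z‖ ^ 2 / |(inner ℝ (π t ξ) z : ℝ)| ^ 2)
    rw [div_lt_iff₀ hpos] at hN
    exact absurd (hbound N) (not_le.mpr hN)
  have hall : ∀ x, Lat π ξ x → (inner ℝ x z : ℝ) = 0 := by
    intro x hx
    induction hx with
    | base t => exact horb t
    | sub x y _ _ h1 h2 => rw [inner_sub_left, h1, h2, sub_self]
    | lim f F x _ hl h1 =>
      have h2 := hl z
      simp only [h1] at h2
      exact tendsto_nhds_unique h2 tendsto_const_nhds |>.symm ▸ rfl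
  exact inner_self_eq_zero.mp (hall z hz)

include hπ hξ in
/-- the function `t ↦ ⟪π t z, v⟫` for an irreducible `z` -/
theorem irr_structure {δ : ℝ} (hδ : 0 < δ)
    (h0 : ∀ t : ℝ, 0 < |t| → |t| < δ → inner ℝ (π t ξ) ξ = (0 : ℝ)) {z v : H} (hz : Irr π ξ z)
    (hv : Lat π ξ v) : ∃ l : List (ℤ × ℝ × ℝ), (∀ x ∈ l, 0 ≤ x.2.2) ∧
      ∀ t, (inner ℝ (π t z) v : ℝ) = indSum l t := by
  classical
  -- the stabiliser is cyclic
  obtain ⟨τ, hτ⟩ : ∃ τ : ℝ, stab hπ z = AddSubgroup.zmultiples τ := by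
    rcases AddSubgroup.dense_or_cyclic (stab hπ z) with h | ⟨a, ha⟩
    · exact absurd (stab_discrete hπ hδ h0 hz.lat h) hz.ne
    · exact ⟨a, by rw [ha, AddSubgroup.zmultiples_eq_closure]⟩
  have hst : ∀ t, π t z = z ↔ ∃ k : ℤ, t = k * |τ| := by
    intro t
    rw [← mem_stab hπ, hτ, AddSubgroup.mem_zmultiples_iff]
    constructor
    · rintro ⟨k, hk⟩
      rw [zsmul_eq_mul] at hk
      rcases abs_choice τ with h | h
      · exact ⟨k, by rw [h, hk]⟩
      · exact ⟨-k, by rw [h, ← hk]; push_cast; ring⟩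
    · rintro ⟨k, hk⟩
      rcases abs_choice τ with h | h
      · exact ⟨k, by rw [zsmul_eq_mul, hk, h]⟩
      · exact ⟨-k, by rw [zsmul_eq_mul, hk, h]; push_cast; ring⟩
  set W : Set H := {w | Irr π ξ w ∧ ‖w‖ ≤ ‖z‖ ∧ (inner ℝ w v : ℝ) ≠ 0} ∩ Set.range (fun t => π t z)
    with hW
  have hWf : W.Finite := (finite_irr hπ hξ hv ‖z‖).inter_of_left _
  have hrep : ∀ w ∈ W, ∃ a : ℝ, π a z = w := fun w hw => hw.2
  choose! a ha using hrep
  have hint : ∀ w ∈ W, ∃ k : ℤ, (inner ℝ w v : ℝ) = k := fun w hw => hw.1.1.lat.int hπ hξ hv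
  choose! n hn using hint
  refine ⟨hWf.toFinset.toList.map (fun w => (n w, a w, |τ|)), ?_, ?_⟩
  · intro x hx
    rw [List.mem_map] at hx
    obtain ⟨w, _, rfl⟩ := hx
    exact abs_nonneg _
  · intro t
    have key : ∀ w ∈ W, ((∃ k : ℤ, t = a w + k * |τ|) ↔ π t z = w) := by
      intro w hw
      have h1 : (∃ k : ℤ, t = a w + k * |τ|) ↔ ∃ k : ℤ, (t - a w) = k * |τ| := by
        constructor
        · rintro ⟨k, hk⟩; exact ⟨k, by rw [hk]; ring⟩
        · rintro ⟨k, hk⟩; exact ⟨k, by rw [← hk]; ring⟩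
      rw [h1, ← hst]
      constructor
      · intro h2
        rw [← ha w hw]
        nth_rewrite 2 [← h2]
        rw [← hπ.add]
        congr 2
        ring
      · intro h2
        apply hπ.inj (a w)
        rw [← hπ.add, ha w hw, ← h2]
        congr 2
        ring
    have h2 : indSum (hWf.toFinset.toList.map (fun w => (n w, a w, |τ|))) t
        = ∑ w ∈ hWf.toFinset, if π t z = w then n w else 0 := by
      rw [indSum, List.map_map, ← Finset.sum_map_toList]
      congr 1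
      apply List.map_congr_left
      intro w hw
      have hw' : w ∈ W := by
        rw [Finset.mem_toList, Set.Finite.mem_toFinset] at hw
        exact hw
      simp only [Function.comp_apply, ind, key w hw']
    rw [h2]
    by_cases hin : π t z ∈ W
    · rw [Finset.sum_ite_eq, if_pos (hWf.mem_toFinset.mpr hin), hn _ hin]
    · rw [Finset.sum_ite_eq, if_neg (fun h => hin (hWf.mem_toFinset.mp h))]
      have h3 : ¬ (inner ℝ (π t z) v : ℝ) ≠ 0 := by
        intro h4
        exact hin ⟨⟨hz.act hπ t, (norm_act hπ t z).le, h4⟩, ⟨t, rfl⟩⟩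
      push Not at h3
      rw [h3]
      simp

include hπ hξ in
/-- the structure theorem in the presence of the representation -/
theorem structure_rep {δ : ℝ} (hδ : 0 < δ)
    (h0 : ∀ t : ℝ, 0 < |t| → |t| < δ → inner ℝ (π t ξ) ξ = (0 : ℝ)) :
    ∃ l : List (ℤ × ℝ × ℝ), (∀ x ∈ l, 0 ≤ x.2.2) ∧
      ∀ t, (inner ℝ (π t ξ) ξ : ℝ) = indSum l t := by
  have hξL : Lat π ξ ξ := by
    have := Lat.base (π := π) (ξ := ξ) 0
    rwa [hπ.zero] at this
  obtain ⟨l, hl, hls⟩ := exists_sum hπ hξ hξL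
  have main : ∀ l : List H, (∀ z ∈ l, Irr π ξ z) → ∃ m : List (ℤ × ℝ × ℝ), (∀ x ∈ m, 0 ≤ x.2.2) ∧
      ∀ t, (inner ℝ (π t l.sum) ξ : ℝ) = indSum m t := by
    intro l
    induction l with
    | nil => exact fun _ => ⟨[], by simp, fun t => by simp [indSum_nil]⟩
    | cons z l ih =>
      intro h
      obtain ⟨m, hm1, hm2⟩ := ih (fun w hw => h w (List.mem_cons_of_mem _ hw))
      obtain ⟨m', hm1', hm2'⟩ := irr_structure hπ hξ hδ h0 (h z List.mem_cons_self) hξL
      refine ⟨m' ++ m, ?_, fun t => ?_⟩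
      · intro x hx
        rcases List.mem_append.mp hx with hx | hx
        · exact hm1' x hx
        · exact hm1 x hx
      · rw [List.sum_cons, map_add, inner_add_left, hm2, hm2', indSum_append]
        push_cast
        ring
  obtain ⟨m, hm1, hm2⟩ := main l hl
  exact ⟨m, hm1, by rw [hls] at hm2; exact hm2⟩

end Pool.Agent.CohenPD
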